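import Mathlib
import Pool.Agent.W811.Nd.Stm

/-!
Nodes of Sturmian spectra with digits 3: the children in a cluster (parts KA and KB).
-/

set_option autoImplicit false

open Set Pool.Agent.W811.Stu

namespace Pool.Agent.W38.Nd

open Pool.Agent.W811.Nd

/-- (KA) -/
theorem ka (h : TDis) (h' : TBand) : TKA := by
  intro lam d m B q hbig hd hB hq hlt hend
  have hlam : 0 < lam := lt_of_lt_of_le (by norm_num) hbig
  obtain ⟨_, hcl⟩ := h lam d m B hbig hd hB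
  obtain ⟨a, b, ha, hab, hb, hiff, hends⟩ := hcl q (1 / 2000) (by norm_num) hq
  have hsub : ∀ e ∈ Icc a b, e ∈ seg B := fun e he => ⟨ha.le.trans he.1, he.2.trans hb.le⟩
  have haB : a ∈ seg B := hsub a ⟨le_rfl, hab.le⟩
  have hbB : b ∈ seg B := hsub b ⟨hab.le, le_rfl⟩
  have hy : ∀ e ∈ Icc a b, |(orb d (lin lam e) (m + 1)).y| < cc (lam / 2) := fun e he =>
    hlt e (hsub e he) ((hiff e (hsub e he)).1 he)
  have hsgn : (orb d (lin lam a) (m + 1)).y < -1 ∧ 1 < (orb d (lin lam b) (m + 1)).y ∨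
      1 < (orb d (lin lam a) (m + 1)).y ∧ (orb d (lin lam b) (m + 1)).y < -1 := by
    rcases hends with ⟨h1, h2⟩ | ⟨h1, h2⟩
    · exact hend a haB b hbB h1 h2
    · rcases hend b hbB a haB h2 h1 with h3 | h3
      · exact Or.inr ⟨h3.2, h3.1⟩
      · exact Or.inl ⟨h3.2, h3.1⟩
  obtain ⟨u, v, hu, huv, hv, hiff2, hends2⟩ :=
    h' lam d (m + 1) a b hlam hd hab hy 1 one_pos hsgn
  have hsub2 : ∀ e ∈ Icc u v, e ∈ Icc a b := fun e he => ⟨hu.le.trans he.1, he.2.trans hv.le⟩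
  refine ⟨(u, v, false), rfl, ⟨huv, fun e he => (hiff2 e (hsub2 e he)).1 he, hends2,
    fun _ e he => ?_, fun hf => absurd hf Bool.false_ne_true⟩, fun e he => hsub e (hsub2 e he),
    fun e he => (hiff e (hsub e (hsub2 e he))).1 (hsub2 e he), fun e he h1 h2 => ?_⟩
  · rw [orb_succ_z]
    exact hB.y1 e (hsub e (hsub2 e he))
  · have h3 : e ∈ Icc a b := (hiff e he).2 h1
    exact (hiff2 e h3).2 h2

/-- (KB) -/
theorem kb (h : TDis) (h' : TB2) : TKB := by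
  intro lam d m B q hbig hd hd3 hB hq hbd hend
  obtain ⟨_, hcl⟩ := h lam d m B hbig hd hB
  obtain ⟨a, b, ha, hab, hb, hiff, hends⟩ := hcl q (1 / 2000) (by norm_num) hq
  have hsub : ∀ e ∈ Icc a b, e ∈ seg B := fun e he => ⟨ha.le.trans he.1, he.2.trans hb.le⟩
  have haB : a ∈ seg B := hsub a ⟨le_rfl, hab.le⟩
  have hbB : b ∈ seg B := hsub b ⟨hab.le, le_rfl⟩
  have hy : ∀ e ∈ Icc a b, |(orb d (lin lam e) (m + 1)).z| ≤ 1 ∧
      4 / 5 * cc (lam / 2) ≤ |(orb d (lin lam e) (m + 1)).y| ∧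
      |(orb d (lin lam e) (m + 1)).y| ≤ 6 / 5 * cc (lam / 2) ∧
      |(orb d (lin lam e) (m + 1)).x| < cc (lam / 2) := fun e he => by
    refine ⟨?_, hbd e (hsub e he) ((hiff e (hsub e he)).1 he)⟩
    rw [orb_succ_z]
    exact hB.y1 e (hsub e he)
  have hsgn : (orb d (lin lam a) (m + 1)).x < -(1 / 4) ∧ 1 / 4 < (orb d (lin lam b) (m + 1)).x ∨
      1 / 4 < (orb d (lin lam a) (m + 1)).x ∧ (orb d (lin lam b) (m + 1)).x < -(1 / 4) := by
    rcases hends with ⟨h1, h2⟩ | ⟨h1, h2⟩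
    · exact hend a haB b hbB h1 h2
    · rcases hend b hbB a haB h2 h1 with h3 | h3
      · exact Or.inr ⟨h3.2, h3.1⟩
      · exact Or.inl ⟨h3.2, h3.1⟩
  obtain ⟨u, v, hu, huv, hv, hnode, hcov⟩ := h' lam d (m + 1) a b hbig hd hd3 hab hy hsgn
  have hsub2 : ∀ e ∈ Icc u v, e ∈ Icc a b := fun e he => ⟨hu.le.trans he.1, he.2.trans hv.le⟩
  exact ⟨(u, v, true), rfl, hnode, fun e he => hsub e (hsub2 e he),
    fun e he => (hiff e (hsub e (hsub2 e he))).1 (hsub2 e he), fun e he h1 h2 =>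
      hcov e ((hiff e he).2 h1) h2⟩

end Pool.Agent.W38.Nd
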